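import Pool.Agent.P.MP_24d2d6_an.Defs

open Filter Topology

namespace Pool.Agent.P.MP_24d2d6_an

variable {𝕜 X Y : Type*} [RCLike 𝕜] [NormedAddCommGroup X] [NormedSpace 𝕜 X]
  [NormedAddCommGroup Y] [NormedSpace 𝕜 Y]

/-- If some vector escapes to infinity under `T^n Λ`, the orbit is closed. -/
theorem mem_orbit_of_mem_closure {T Λ h : X →L[𝕜] X} {x₀ : X}
    (hx : Tendsto (fun n : ℕ => ‖(T ^ n) (Λ x₀)‖) atTop atTop)
    (hh : MemSOTClosureOrbit T Λ h) : ∃ n : ℕ, h = T ^ n * Λ := by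
  obtain ⟨N, hN⟩ := eventually_atTop.1 (hx.eventually_ge_atTop (‖h x₀‖ + 1))
  set F : ℕ → X → X := fun n => ((T ^ n * Λ : X →L[𝕜] X) : X → X) with hF
  have hsub : Set.range F ⊆ F '' {n | n < N} ∪ {f : X → X | ‖h x₀‖ + 1 ≤ ‖f x₀‖} := by
    rintro _ ⟨n, rfl⟩
    by_cases hn : n < N
    · exact Or.inl ⟨n, hn, rfl⟩
    · exact Or.inr (hN n (not_lt.1 hn))
  have hcl : IsClosed (F '' {n | n < N} ∪ {f : X → X | ‖h x₀‖ + 1 ≤ ‖f x₀‖}) :=
    ((Set.finite_lt_nat N).image F).isClosed.union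
      (isClosed_le continuous_const (continuous_apply x₀).norm)
  rcases closure_minimal hsub hcl hh.mem_closure with ⟨n, -, hn⟩ | h2
  · exact ⟨n, DFunLike.coe_injective hn.symm⟩
  · have h3 : ‖h x₀‖ + 1 ≤ ‖h x₀‖ := h2
    linarith

theorem abstract_counterexample {T T' : X →L[𝕜] X} (hTT' : T * T' = 1) (hT'T : T' * T = 1)
    (P : X →L[𝕜] Y) (hP : ∀ x, P (T x) = P x) (x₀ : X)
    (hx₀ : ∀ x, P x = P x₀ → Tendsto (fun n : ℕ => ‖(T ^ n) x‖) atTop atTop)
    (θ : ℕ → ℕ) (hθ : StrictMono θ) (D : Set X) (hD : Dense D)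
    (hper : ∀ x ∈ D, ∀ᶠ n in atTop, (T ^ θ n) x = x) :
    IsQuasiRigid T ∧ ∀ Λ : X →L[𝕜] X, ∃ h, MemOmega T h ∧ ¬ MemSOTClosureOrbit T Λ h := by
  have hcomm : Commute T' T := hT'T.trans hTT'.symm
  have hpow : ∀ j : ℕ, T' ^ j * T ^ j = 1 := fun j => by rw [← hcomm.mul_pow, hT'T, one_pow]
  have hpow' : ∀ j : ℕ, T ^ j * T' ^ j = 1 := fun j => by
    rw [← hcomm.symm.mul_pow, hTT', one_pow]
  have hΩ : ∀ j : ℕ, MemOmega T (T' ^ j) := by
    intro j
    have hle : ∀ n, n + j + 1 ≤ θ (n + j + 1) := fun n => hθ.le_apply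
    refine ⟨fun n => θ (n + j + 1) - j, fun a b hab => ?_, fun n => ?_, D, hD, fun x hx => ?_⟩
    · have h1 : θ (a + j + 1) < θ (b + j + 1) := hθ (by omega)
      have h2 := hle a
      change θ (a + j + 1) - j < θ (b + j + 1) - j
      omega
    · have h2 := hle n
      change 1 ≤ θ (n + j + 1) - j
      omega
    · have h1 : ∀ᶠ n in atTop, (T ^ θ (n + j + 1)) x = x :=
        (tendsto_add_atTop_nat (j + 1)).eventually (hper x hx)
      refine tendsto_const_nhds.congr' (h1.mono fun n hn => ?_)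
      have h2 := hle n
      have h3 : T ^ (θ (n + j + 1) - j) = T' ^ j * T ^ θ (n + j + 1) := by
        have h4 : θ (n + j + 1) = j + (θ (n + j + 1) - j) := by omega
        conv_rhs => rw [h4, pow_add, ← mul_assoc, hpow, one_mul]
      change (T' ^ j) x = (T ^ (θ (n + j + 1) - j)) x
      rw [h3, mul_apply_eq_comp, hn]
  refine ⟨⟨by simpa using (hΩ 0).exists_seq⟩, fun Λ => ?_⟩
  by_contra hcon
  push Not at hcon
  have hPn : ∀ (n : ℕ) (x : X), P ((T ^ n) x) = P x := by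
    intro n
    induction n with
    | zero => intro x; rfl
    | succ n ih => intro x; rw [pow_succ', mul_apply_eq_comp, hP, ih]
  have h1 : P (Λ x₀) = P x₀ := by
    have hcl : IsClosed {f : X → X | P (f x₀) = P (Λ x₀)} :=
      isClosed_eq (P.continuous.comp (continuous_apply x₀)) continuous_const
    have hsub : (Set.range fun n : ℕ => ((T ^ n * Λ : X →L[𝕜] X) : X → X))
        ⊆ {f : X → X | P (f x₀) = P (Λ x₀)} := by
      rintro _ ⟨n, rfl⟩
      exact hPn n _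
    have h2 := closure_minimal hsub hcl (hcon _ (hΩ 0)).mem_closure
    exact Eq.symm h2
  have hesc := hx₀ _ h1
  obtain ⟨n, hn⟩ := mem_orbit_of_mem_closure hesc (hcon _ (hΩ 0))
  obtain ⟨j, hj⟩ := mem_orbit_of_mem_closure hesc (hcon _ (hΩ (n + 1)))
  rw [pow_zero] at hn
  have h3 : T ^ (j + 1) = 1 := by
    have h4 := hpow' (n + 1)
    rw [hj, ← mul_assoc, ← pow_add, show n + 1 + j = (j + 1) + n by ring, pow_add, mul_assoc,
      ← hn, mul_one] at h4
    exact h4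
  have h5 : Tendsto (fun k : ℕ => (j + 1) * k) atTop atTop :=
    tendsto_atTop_mono (fun k => Nat.le_mul_of_pos_left k (Nat.succ_pos j)) tendsto_id
  have h6 := hesc.comp h5
  have h7 : (fun n : ℕ => ‖(T ^ n) (Λ x₀)‖) ∘ (fun k : ℕ => (j + 1) * k) = fun _ => ‖Λ x₀‖ := by
    funext k
    simp only [Function.comp, pow_mul, h3, one_pow]
    rfl
  rw [h7] at h6
  exact not_tendsto_const_atTop _ _ h6

end Pool.Agent.P.MP_24d2d6_an
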