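import Pool.Agent.P.MP_24d2d6_an.Abstract

open Filter Topology Finset
open scoped InnerProductSpace

namespace Pool.Agent.P.MP_24d2d6_an

section Skew

variable {𝕜 Z : Type*} [RCLike 𝕜] [NormedAddCommGroup Z] [NormedSpace 𝕜 Z]

/-- `S n = ∑_{j<n} R^j`. -/
noncomputable def geom (R : Z ≃ₗᵢ[𝕜] Z) (n : ℕ) : Z →L[𝕜] Z :=
  ∑ j ∈ range n, (R.toContinuousLinearEquiv : Z →L[𝕜] Z) ^ j

/-- `T (y, z) = (y, y + R z)` on the Hilbert sum. -/
noncomputable def skew (R : Z →L[𝕜] Z) (A : Z →L[𝕜] Z) : WithLp 2 (Z × Z) →L[𝕜] WithLp 2 (Z × Z) :=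
  ((WithLp.prodContinuousLinearEquiv 2 𝕜 Z Z).symm : Z × Z →L[𝕜] WithLp 2 (Z × Z)) ∘L
    ((ContinuousLinearMap.fst 𝕜 Z Z).prod
      (A ∘L ContinuousLinearMap.fst 𝕜 Z Z + R ∘L ContinuousLinearMap.snd 𝕜 Z Z)) ∘L
    (WithLp.prodContinuousLinearEquiv 2 𝕜 Z Z : WithLp 2 (Z × Z) →L[𝕜] Z × Z)

theorem skew_apply (R A : Z →L[𝕜] Z) (x : WithLp 2 (Z × Z)) :
    skew R A x = WithLp.toLp 2 (x.fst, A x.fst + R x.snd) := rfl

theorem geom_succ (R : Z ≃ₗᵢ[𝕜] Z) (n : ℕ) (y : Z) : geom R (n + 1) y = y + R (geom R n y) := by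
  simp only [geom, sum_range_succ', pow_succ', add_apply,
    _root_.sum_apply, map_sum, pow_zero]
  rw [add_comm]
  rfl

theorem geom_succ' (R : Z ≃ₗᵢ[𝕜] Z) (n : ℕ) (y : Z) :
    geom R (n + 1) y = geom R n y + ((R.toContinuousLinearEquiv : Z →L[𝕜] Z) ^ n) y := by
  simp only [geom, sum_range_succ, add_apply]

theorem skew_pow (R : Z ≃ₗᵢ[𝕜] Z) (n : ℕ) (x : WithLp 2 (Z × Z)) :
    (skew (R.toContinuousLinearEquiv : Z →L[𝕜] Z) 1 ^ n) x = WithLp.toLp 2 (x.fst,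
      geom R n x.fst + ((R.toContinuousLinearEquiv : Z →L[𝕜] Z) ^ n) x.snd) := by
  induction n with
  | zero => simp [geom]; rfl
  | succ n ih =>
    rw [pow_succ', mul_apply_eq_comp, ih, skew_apply, geom_succ, pow_succ', mul_apply_eq_comp]
    simp [add_assoc]

theorem norm_pow_apply (R : Z ≃ₗᵢ[𝕜] Z) (n : ℕ) (z : Z) :
    ‖((R.toContinuousLinearEquiv : Z →L[𝕜] Z) ^ n) z‖ = ‖z‖ := by
  induction n with
  | zero => rfl
  | succ n ih => rw [pow_succ', mul_apply_eq_comp, ← ih]; exact R.norm_map _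

theorem skew_counterexample (R : Z ≃ₗᵢ[𝕜] Z) (y₀ : Z)
    (hy₀ : Tendsto (fun n => ‖geom R n y₀‖) atTop atTop)
    (θ : ℕ → ℕ) (hθ : StrictMono θ) (D : Set Z) (hD : Dense D)
    (hper : ∀ z ∈ D, ∀ᶠ n in atTop, geom R (θ n) z = 0) :
    ∃ T : WithLp 2 (Z × Z) →L[𝕜] WithLp 2 (Z × Z), IsQuasiRigid T ∧
      ∀ Λ, ∃ h, MemOmega T h ∧ ¬ MemSOTClosureOrbit T Λ h := by
  refine ⟨skew (R.toContinuousLinearEquiv : Z →L[𝕜] Z) 1, abstract_counterexample
    (T' := skew (R.symm.toContinuousLinearEquiv : Z →L[𝕜] Z)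
      (-(R.symm.toContinuousLinearEquiv : Z →L[𝕜] Z))) ?_ ?_
    (ContinuousLinearMap.fst 𝕜 Z Z ∘L
      (WithLp.prodContinuousLinearEquiv 2 𝕜 Z Z : WithLp 2 (Z × Z) →L[𝕜] Z × Z))
    (fun x => rfl) (WithLp.toLp 2 (y₀, 0)) ?_ θ hθ {x | x.fst ∈ D ∧ x.snd ∈ D} ?_ ?_⟩
  · ext1 x
    rw [mul_apply_eq_comp, skew_apply, skew_apply]
    simp
    rfl
  · ext1 x
    rw [mul_apply_eq_comp, skew_apply, skew_apply]
    simp
    rfl
  · intro x hx
    have hx' : x.fst = y₀ := hx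
    refine tendsto_atTop_mono (fun n => ?_) (tendsto_atTop_add_const_right _ (-‖x.snd‖) hy₀)
    rw [skew_pow, hx']
    have h1 := WithLp.norm_snd_le (p := 2) _ (WithLp.toLp 2 (y₀,
      geom R n y₀ + ((R.toContinuousLinearEquiv : Z →L[𝕜] Z) ^ n) x.snd))
    have h2 := norm_sub_le (geom R n y₀ + ((R.toContinuousLinearEquiv : Z →L[𝕜] Z) ^ n) x.snd)
      (((R.toContinuousLinearEquiv : Z →L[𝕜] Z) ^ n) x.snd)
    rw [add_sub_cancel_right, norm_pow_apply] at h2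
    have h3 : (WithLp.toLp 2 (y₀,
      geom R n y₀ + ((R.toContinuousLinearEquiv : Z →L[𝕜] Z) ^ n) x.snd)).snd
        = geom R n y₀ + ((R.toContinuousLinearEquiv : Z →L[𝕜] Z) ^ n) x.snd := rfl
    rw [h3] at h1
    linarith
  · exact (hD.prod hD).preimage (WithLp.prodContinuousLinearEquiv 2 𝕜 Z Z).toHomeomorph.isOpenMap
  · rintro x ⟨h1, h2⟩
    filter_upwards [hper _ h1, hper _ h2] with n hn1 hn2
    have h3 := geom_succ R (θ n) x.snd
    rw [geom_succ', hn2, map_zero, zero_add, add_zero] at h3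
    rw [skew_pow, hn1, h3, zero_add]
    rfl

end Skew

theorem sum_antiperiodic {Z : Type*} [AddCommGroup Z] (f : ℕ → Z) (m : ℕ)
    (hf : ∀ i, f (i + m) = -f i) (q : ℕ) : ∑ i ∈ range (2 * m * q), f i = 0 := by
  induction q with
  | zero => simp
  | succ q ih =>
    rw [show 2 * m * (q + 1) = 2 * m * q + m + m by ring, sum_range_add, sum_range_add, ih,
      zero_add, ← sum_add_distrib]
    refine sum_eq_zero fun i _ => ?_
    rw [show 2 * m * q + m + i = (2 * m * q + i) + m by ring, hf, add_neg_cancel]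

/-- The index set: blocks of size `16 ^ k`. -/
abbrev J : Type := Σ k : ℕ, Fin (16 ^ k)

theorem pos16 (k : ℕ) : 0 < 16 ^ k := by positivity

section Blocks

variable {𝕜 Z : Type*} [RCLike 𝕜] [NormedAddCommGroup Z] [InnerProductSpace 𝕜 Z]

/-- The signed basis vectors. -/
noncomputable def ev (b : HilbertBasis J 𝕜 Z) (k t : ℕ) : Z :=
  ((-1 : 𝕜) ^ (t / 16 ^ k)) • b ⟨k, ⟨t % 16 ^ k, Nat.mod_lt _ (pos16 k)⟩⟩

theorem ev_of_lt (b : HilbertBasis J 𝕜 Z) (k : ℕ) (j : Fin (16 ^ k)) : ev b k j = b ⟨k, j⟩ := by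
  simp [ev, Nat.div_eq_of_lt j.2, Nat.mod_eq_of_lt j.2]

theorem ev_add (b : HilbertBasis J 𝕜 Z) (k t : ℕ) : ev b k (t + 16 ^ k) = -ev b k t := by
  simp only [ev, Nat.add_div_right _ (pos16 k), Nat.add_mod_right, pow_succ]
  simp

theorem ev_mod (b : HilbertBasis J 𝕜 Z) (k t s : ℕ) :
    ev b k (t + s) = ((-1 : 𝕜) ^ (t / 16 ^ k)) • ev b k (t % 16 ^ k + s) := by
  have h1 : (t + s) / 16 ^ k = t / 16 ^ k + (t % 16 ^ k + s) / 16 ^ k := by
    conv_lhs => rw [← Nat.div_add_mod t (16 ^ k), add_assoc, Nat.mul_add_div (pos16 k)]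
  simp only [ev, h1, pow_add, mul_smul, Nat.mod_add_mod]

theorem orthonormal_shift (b : HilbertBasis J 𝕜 Z) :
    Orthonormal 𝕜 fun i : J => ev b i.1 (i.2 + 1) := by
  let σ : J → J := fun i => ⟨i.1, ⟨(i.2 + 1) % 16 ^ i.1, Nat.mod_lt _ (pos16 _)⟩⟩
  have hσ : Function.Injective σ := by
    rintro ⟨k, j⟩ ⟨k', j'⟩ h
    have hk : k = k' := congrArg Sigma.fst h
    subst hk
    have h2 : ((j : ℕ) + 1) % 16 ^ k = ((j' : ℕ) + 1) % 16 ^ k := by
      simpa [σ] using h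
    have h3 : (j : ℕ) % 16 ^ k = j' % 16 ^ k := Nat.ModEq.add_right_cancel' 1 h2
    rw [Nat.mod_eq_of_lt j.2, Nat.mod_eq_of_lt j'.2] at h3
    rw [Fin.ext h3]
  refine (b.orthonormal.comp σ hσ).orthonormal_of_forall_eq_or_eq_neg fun i => ?_
  rcases neg_one_pow_eq_or 𝕜 ((i.2 + 1) / 16 ^ i.1) with h | h
  · left
    simp [ev, h, σ]
  · right
    simp [ev, h, σ]

theorem dense_shift (b : HilbertBasis J 𝕜 Z) :
    ⊤ ≤ (Submodule.span 𝕜 (Set.range fun i : J => ev b i.1 (i.2 + 1))).topologicalClosure := by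
  rw [← b.dense_span]
  apply Submodule.topologicalClosure_mono
  rw [Submodule.span_le]
  rintro _ ⟨⟨k, j⟩, rfl⟩
  have hp := pos16 k
  have h1 := ev_mod b k (j + 16 ^ k - 1) 1
  rw [show (j : ℕ) + 16 ^ k - 1 + 1 = j + 16 ^ k by omega, ev_add, ev_of_lt] at h1
  rw [← neg_neg (b ⟨k, j⟩), h1]
  refine Submodule.neg_mem _ (Submodule.smul_mem _ _ (Submodule.subset_span ?_))
  exact ⟨⟨k, ⟨(j + 16 ^ k - 1) % 16 ^ k, Nat.mod_lt _ hp⟩⟩, rfl⟩

variable [CompleteSpace Z]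

/-- The signed block shift. -/
noncomputable def shift (b : HilbertBasis J 𝕜 Z) : Z ≃ₗᵢ[𝕜] Z :=
  b.repr.trans (HilbertBasis.mk (orthonormal_shift b) (dense_shift b)).repr.symm

theorem shift_basis (b : HilbertBasis J 𝕜 Z) (i : J) : shift b (b i) = ev b i.1 (i.2 + 1) := by
  classical
  rw [shift, LinearIsometryEquiv.trans_apply, b.repr_self, HilbertBasis.repr_symm_single,
    HilbertBasis.coe_mk]

theorem shift_ev (b : HilbertBasis J 𝕜 Z) (k t : ℕ) : shift b (ev b k t) = ev b k (t + 1) := by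
  rw [ev_mod b k t 1, ev, map_smul, shift_basis]

theorem shift_pow_ev (b : HilbertBasis J 𝕜 Z) (k t n : ℕ) :
    (((shift b).toContinuousLinearEquiv : Z →L[𝕜] Z) ^ n) (ev b k t) = ev b k (t + n) := by
  induction n with
  | zero => rfl
  | succ n ih => rw [pow_succ', mul_apply_eq_comp, ih, ← add_assoc, ← shift_ev]; rfl

theorem geom_ev (b : HilbertBasis J 𝕜 Z) (k t n : ℕ) :
    geom (shift b) n (ev b k t) = ∑ i ∈ range n, ev b k (t + i) := by
  simp only [geom, _root_.sum_apply, shift_pow_ev]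

theorem geom_eventually (b : HilbertBasis J 𝕜 Z) (z : Z) (hz : z ∈ Submodule.span 𝕜 (Set.range b)) :
    ∀ᶠ n in atTop, geom (shift b) (2 * 16 ^ n) z = 0 := by
  induction hz using Submodule.span_induction with
  | mem x hx =>
    obtain ⟨⟨k, j⟩, rfl⟩ := hx
    filter_upwards [eventually_ge_atTop k] with n hn
    obtain ⟨q, rfl⟩ := Nat.exists_eq_add_of_le hn
    rw [← ev_of_lt, geom_ev, pow_add, ← mul_assoc]
    exact sum_antiperiodic (fun i => ev b k (j + i)) _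
      (fun i => by rw [← add_assoc, ev_add]) _
  | zero => exact Eventually.of_forall fun n => map_zero _
  | add x y _ _ hx hy =>
    filter_upwards [hx, hy] with n h1 h2
    rw [map_add, h1, h2, add_zero]
  | smul a x _ hx =>
    filter_upwards [hx] with n h1
    rw [map_smul, h1, smul_zero]

omit [CompleteSpace Z] in
theorem norm_ev (b : HilbertBasis J 𝕜 Z) (k t : ℕ) : ‖ev b k t‖ = 1 := by
  simp [ev, norm_smul, b.orthonormal.1]

omit [CompleteSpace Z] in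
theorem inner_ev_ne (b : HilbertBasis J 𝕜 Z) {k l : ℕ} (h : k ≠ l) (s t : ℕ) :
    ⟪ev b k s, ev b l t⟫_𝕜 = 0 := by
  rw [ev, ev, inner_smul_left, inner_smul_right, b.orthonormal.2, mul_zero, mul_zero]
  intro h'
  exact h (congrArg Sigma.fst h')

omit [CompleteSpace Z] in
theorem inner_ev_same (b : HilbertBasis J 𝕜 Z) {k s t : ℕ} (hs : s < 16 ^ k) (ht : t < 16 ^ k) :
    ⟪ev b k s, ev b k t⟫_𝕜 = if s = t then 1 else 0 := by
  classical
  have h1 := ev_of_lt b k ⟨s, hs⟩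
  have h2 := ev_of_lt b k ⟨t, ht⟩
  change ev b k s = _ at h1
  change ev b k t = _ at h2
  rw [h1, h2, orthonormal_iff_ite.1 b.orthonormal]
  simp

theorem exists_escape (b : HilbertBasis J 𝕜 Z) :
    ∃ y₀ : Z, Tendsto (fun n => ‖geom (shift b) n y₀‖) atTop atTop := by
  let c : ℕ → 𝕜 := fun k => (((1 / 2 : ℝ) ^ k : ℝ) : 𝕜)
  have hc : ∀ k, ‖c k‖ = (1 / 2 : ℝ) ^ k := fun k => by
    simp only [c, RCLike.norm_ofReal]
    exact abs_of_nonneg (by positivity)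
  have hsum : Summable fun k => c k • ev b k 0 := by
    refine Summable.of_norm ?_
    simp only [norm_smul, norm_ev, mul_one, hc]
    exact summable_geometric_two
  refine ⟨∑' k, c k • ev b k 0, ?_⟩
  have key : ∀ k n : ℕ, n ≤ 16 ^ k →
      (1 / 2 : ℝ) ^ k * √n ≤ ‖geom (shift b) n (∑' k, c k • ev b k 0)‖ := by
    intro k n hn
    set w : Z := ∑ i ∈ range n, ev b k i with hw
    have hww : ⟪w, w⟫_𝕜 = n := by
      rw [hw, sum_inner]
      rw [sum_congr rfl (g := fun _ => (1 : 𝕜)) fun i hi => ?_]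
      · simp
      · rw [inner_sum, sum_congr rfl (g := fun j => if i = j then (1 : 𝕜) else 0) fun j hj =>
          inner_ev_same b ((mem_range.1 hi).trans_le hn) ((mem_range.1 hj).trans_le hn)]
        simp [mem_range.1 hi]
    have hwn : ‖w‖ = √n := by
      rw [← Real.sqrt_sq (norm_nonneg w), ← inner_self_eq_norm_sq (𝕜 := 𝕜), hww]
      simp
    have h1 : HasSum (fun l => ⟪w, geom (shift b) n (c l • ev b l 0)⟫_𝕜)
        ⟪w, geom (shift b) n (∑' k, c k • ev b k 0)⟫_𝕜 :=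
      (innerSL 𝕜 w ∘L geom (shift b) n).hasSum hsum.hasSum
    have h2 : HasSum (fun l => ⟪w, geom (shift b) n (c l • ev b l 0)⟫_𝕜) (c k * n) := by
      have h3 : ⟪w, geom (shift b) n (c k • ev b k 0)⟫_𝕜 = c k * n := by
        rw [map_smul, inner_smul_right, geom_ev, ← hww]
        simp only [zero_add, hw]
      rw [← h3]
      refine hasSum_single k fun l hl => ?_
      rw [map_smul, inner_smul_right, geom_ev, hw, sum_inner]
      simp [inner_sum, inner_ev_ne b hl.symm]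
    have h4 := norm_inner_le_norm (𝕜 := 𝕜) w (geom (shift b) n (∑' k, c k • ev b k 0))
    rw [h1.unique h2, norm_mul, hc, hwn, RCLike.norm_natCast] at h4
    rcases Nat.eq_zero_or_pos n with rfl | hpos
    · simp
    · have h5 : (0 : ℝ) < √n := Real.sqrt_pos.2 (by exact_mod_cast hpos)
      have h6 : (n : ℝ) = √n * √n := (Real.mul_self_sqrt (Nat.cast_nonneg n)).symm
      refine le_of_mul_le_mul_left ?_ h5
      calc √n * ((1 / 2 : ℝ) ^ k * √n) = (1 / 2 : ℝ) ^ k * (√n * √n) := by ring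
        _ = (1 / 2 : ℝ) ^ k * n := by rw [← h6]
        _ ≤ _ := h4
  have hlog : Tendsto (fun n : ℕ => Nat.log 16 n) atTop atTop :=
    tendsto_atTop.2 fun K => (eventually_ge_atTop (16 ^ K)).mono fun n hn =>
      Nat.le_log_of_pow_le (by norm_num) hn
  have h2 : Tendsto (fun n : ℕ => (2 : ℝ) ^ Nat.log 16 n / 2) atTop atTop :=
    ((tendsto_pow_atTop_atTop_of_one_lt one_lt_two).comp hlog).atTop_div_const two_pos
  refine tendsto_atTop_mono' _ ?_ h2
  filter_upwards [eventually_ge_atTop 1] with n hn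
  refine le_trans ?_ (key (Nat.log 16 n + 1) n (Nat.lt_pow_succ_log_self (by norm_num) n).le)
  set k := Nat.log 16 n
  have h3 : 16 ^ k ≤ n := Nat.pow_log_le_self 16 (by omega)
  have h4 : (4 : ℝ) ^ k ≤ √n := by
    apply Real.le_sqrt_of_sq_le
    rw [← pow_mul, mul_comm, pow_mul]
    norm_num
    exact_mod_cast h3
  calc (2 : ℝ) ^ k / 2 = (1 / 2 : ℝ) ^ (k + 1) * 4 ^ k := by
        rw [show (4 : ℝ) = 2 * 2 by norm_num, mul_pow, pow_succ, one_div, inv_pow]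
        field_simp
    _ ≤ _ := by gcongr

omit [CompleteSpace Z] in
theorem separable_of_basis (b : HilbertBasis J 𝕜 Z) : TopologicalSpace.SeparableSpace Z := by
  rw [← TopologicalSpace.isSeparable_univ_iff]
  have h := ((Set.countable_range b).isSeparable.span (R := 𝕜)).closure
  rwa [← Submodule.topologicalClosure_coe, b.dense_span] at h

theorem block_counterexample (b : HilbertBasis J 𝕜 Z) :
    ∃ T : WithLp 2 (Z × Z) →L[𝕜] WithLp 2 (Z × Z), IsQuasiRigid T ∧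
      ∀ Λ, ∃ h, MemOmega T h ∧ ¬ MemSOTClosureOrbit T Λ h := by
  obtain ⟨y₀, hy₀⟩ := exists_escape b
  refine skew_counterexample (shift b) y₀ hy₀ (fun n => 2 * 16 ^ n) (fun m n h => ?_)
    (Submodule.span 𝕜 (Set.range b)) ?_ (geom_eventually b)
  · have := Nat.pow_lt_pow_right (show 1 < 16 by norm_num) h
    change 2 * 16 ^ m < 2 * 16 ^ n
    omega
  · rw [Submodule.dense_iff_topologicalClosure_eq_top, b.dense_span]

end Blocks

end Pool.Agent.P.MP_24d2d6_an
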