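import Mathlib

/-!
Definitions for MP_24d2d6_an.
-/

open Filter Topology

namespace Pool.Agent.P.MP_24d2d6_an

variable {𝕜 X : Type*} [RCLike 𝕜] [NormedAddCommGroup X] [NormedSpace 𝕜 X]

/-- `T` is quasi-rigid. -/
structure IsQuasiRigid (T : X →L[𝕜] X) : Prop where
  exists_seq : ∃ θ : ℕ → ℕ, StrictMono θ ∧ (∀ n, 1 ≤ θ n) ∧
    ∃ D : Set X, Dense D ∧ ∀ x ∈ D, Tendsto (fun n => (T ^ θ n) x) atTop (𝓝 x)

/-- `h ∈ Ω(T)`. -/
structure MemOmega (T h : X →L[𝕜] X) : Prop where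
  exists_seq : ∃ ω : ℕ → ℕ, StrictMono ω ∧ (∀ n, 1 ≤ ω n) ∧
    ∃ D : Set X, Dense D ∧ ∀ x ∈ D, Tendsto (fun n => (T ^ ω n) x) atTop (𝓝 (h x))

/-- `h` lies in the closure of `{T^n Λ : n ≥ 0}` for the strong operator topology, that is, the
topology of pointwise norm convergence (the product topology on `X → X`). -/
structure MemSOTClosureOrbit (T Λ h : X →L[𝕜] X) : Prop where
  mem_closure : (h : X → X) ∈ closure (Set.range fun n : ℕ => ((T ^ n * Λ : X →L[𝕜] X) : X → X))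

end Pool.Agent.P.MP_24d2d6_an
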